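import Pool.Agent.MP_369736_co.Split

set_option autoImplicit false

namespace Pool.Agent.MP_369736_co

/-- Base case 2: part sizes (1, 1, 1, 1, 1). -/
lemma goodB2 : Good (![0, 1, 2, 3, 4] : Fin 5 → Fin 5) {i : Fin 5 | i = 0} := by
  refine ⟨⟨![0, 2, 3, 4, 1], ![0, 4, 1, 2, 3], by decide, by decide⟩,
    fun u v => Nat.testBit ((![10, 13, 2, 19, 8] : Fin 5 → ℕ) u) v = true,
    by decide +kernel, by decide +kernel, by decide +kernel, ?_⟩
  intro i hi
  refine ⟨fun w => Nat.testBit ((![30, 0, 0, 0, 0] : Fin 5 → ℕ) i) w = true,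
    fun w => Nat.testBit ((![0, 0, 0, 0, 0] : Fin 5 → ℕ) i) w = true, ?_, ?_, ?_, ?_⟩
  all_goals
    simp only [Set.mem_ofPred_eq] at hi
    revert i
    decide +kernel

/-- Base case 3: part sizes (3, 3, 1, 1, 1). -/
lemma goodB3 : Good (![0, 0, 0, 2, 1, 1, 3, 4, 1] : Fin 9 → Fin 5) Set.univ := by
  refine ⟨⟨![1, 2, 3, 4, 5, 6, 7, 8, 0], ![8, 0, 1, 2, 3, 4, 5, 6, 7], by decide, by decide⟩,
    fun u v => Nat.testBit ((![240, 24, 456, 102, 3, 201, 45, 293, 132] : Fin 9 → ℕ) u) v = true,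
    by decide +kernel, by decide +kernel, by decide +kernel, ?_⟩
  intro i hi
  refine ⟨fun w => Nat.testBit ((![168, 69, 338, 149, 298] : Fin 5 → ℕ) i) w = true,
    fun w => Nat.testBit ((![168, 69, 338, 149, 298] : Fin 5 → ℕ) i) w = true, ?_, ?_, ?_, ?_⟩
  all_goals
    clear hi
    revert i
    decide +kernel

/-- Base case 4: part sizes (1, 1, 1, 1). -/
lemma goodB4 : Good (![0, 1, 2, 3] : Fin 4 → Fin 4) (∅ : Set (Fin 4)) := by
  refine ⟨⟨![1, 2, 3, 0], ![3, 0, 1, 2], by decide, by decide⟩,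
    fun u v => Nat.testBit ((![6, 1, 9, 4] : Fin 4 → ℕ) u) v = true,
    by decide +kernel, by decide +kernel, by decide +kernel, ?_⟩
  intro i hi
  exact hi.elim

/-- Base case 5: part sizes (3, 1, 1, 1, 2, 2). -/
lemma goodB5 : Good (![1, 2, 3, 4, 0, 4, 5, 0, 0, 5] : Fin 10 → Fin 6) {i : Fin 6 | i = 0 ∨ i = 1 ∨ i = 2 ∨ i = 3 ∨ i = 5} := by
  refine ⟨⟨![1, 2, 3, 4, 5, 6, 7, 8, 0, 9], ![8, 0, 1, 2, 3, 4, 5, 6, 7, 9], by decide, by decide⟩,
    fun u v => Nat.testBit ((![824, 396, 738, 19, 585, 325, 308, 518, 99, 149] : Fin 10 → ℕ) u) v = true,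
    by decide +kernel, by decide +kernel, by decide +kernel, ?_⟩
  intro i hi
  refine ⟨fun w => Nat.testBit ((![549, 682, 852, 681, 0, 149] : Fin 6 → ℕ) i) w = true,
    fun w => Nat.testBit ((![37, 170, 340, 169, 0, 149] : Fin 6 → ℕ) i) w = true, ?_, ?_, ?_, ?_⟩
  all_goals
    simp only [Set.mem_ofPred_eq] at hi
    revert i
    decide +kernel

/-- Base case 6: part sizes (3, 1, 1, 1, 4). -/
lemma goodB6 : Good (![0, 0, 0, 1, 4, 4, 2, 3, 4, 4] : Fin 10 → Fin 5) Set.univ := by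
  refine ⟨⟨![1, 2, 3, 4, 5, 6, 7, 8, 0, 9], ![8, 0, 1, 2, 3, 4, 5, 6, 7, 9], by decide, by decide⟩,
    fun u v => Nat.testBit ((![752, 24, 968, 102, 3, 201, 557, 293, 132, 69] : Fin 10 → ℕ) u) v = true,
    by decide +kernel, by decide +kernel, by decide +kernel, ?_⟩
  intro i hi
  refine ⟨fun w => Nat.testBit ((![680, 850, 661, 810, 69] : Fin 5 → ℕ) i) w = true,
    fun w => Nat.testBit ((![168, 338, 149, 298, 69] : Fin 5 → ℕ) i) w = true, ?_, ?_, ?_, ?_⟩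
  all_goals
    clear hi
    revert i
    decide +kernel

/-- Base case 7: part sizes (3, 3, 1, 1, 2). -/
lemma goodB7 : Good (![0, 0, 0, 2, 1, 1, 3, 4, 1, 4] : Fin 10 → Fin 5) Set.univ := by
  refine ⟨⟨![1, 2, 3, 4, 5, 6, 7, 8, 0, 9], ![8, 0, 1, 2, 3, 4, 5, 6, 7, 9], by decide, by decide⟩,
    fun u v => Nat.testBit ((![240, 536, 456, 614, 3, 713, 45, 293, 644, 298] : Fin 10 → ℕ) u) v = true,
    by decide +kernel, by decide +kernel, by decide +kernel, ?_⟩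
  intro i hi
  refine ⟨fun w => Nat.testBit ((![680, 581, 850, 661, 298] : Fin 5 → ℕ) i) w = true,
    fun w => Nat.testBit ((![168, 69, 338, 149, 298] : Fin 5 → ℕ) i) w = true, ?_, ?_, ?_, ?_⟩
  all_goals
    clear hi
    revert i
    decide +kernel

end Pool.Agent.MP_369736_co
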