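import Pool.Agent.MP_369736_co.Main

set_option autoImplicit false

namespace Pool.Agent.MP_369736_co

open Function SimpleGraph

lemma good_empty : Good (Fin.elim0 : Fin 0 → Fin 0) (Set.univ : Set (Fin 0)) :=
  ⟨Equiv.refl _, fun _ _ => False, fun _ _ h => h, fun _ _ h => h.elim, fun u => u.elim0,
    fun i => i.elim0⟩

lemma good_one : Good (id : Fin 1 → Fin 1) (Set.univ : Set (Fin 1)) := by
  refine ⟨Equiv.refl _, fun _ _ => False, fun _ _ h => h, fun _ _ h => h.elim, ?_, ?_⟩
  · intro u v
    have : u = v := Subsingleton.elim u v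
    subst this; simp
  · intro i _
    refine ⟨fun _ => False, fun _ => False, fun _ h => h.elim, fun _ h => h.elim, ?_, ?_⟩ <;>
    · intro w
      have : w = i := Subsingleton.elim w i
      subst this; simp

lemma sort4 : ∀ p : Fin 4 → Bool, (∃ σ : Equiv.Perm (Fin 4), p (σ 0) = true ∧ p (σ 1) = true) ∨
    (∃ σ : Equiv.Perm (Fin 4), p (σ 0) = true ∧ p (σ 1) = false ∧ p (σ 2) = false ∧
      p (σ 3) = false) ∨ (∀ j, p j = false) := by
  decide +kernel

lemma sort5 : ∀ p : Fin 5 → Bool, (∃ σ : Equiv.Perm (Fin 5), p (σ 0) = true ∧ p (σ 1) = true) ∨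
    (∃ σ : Equiv.Perm (Fin 5), p (σ 1) = false ∧ p (σ 2) = false ∧
      p (σ 3) = false ∧ p (σ 4) = false) := by
  decide +kernel

lemma exists_enum {r k : ℕ} (O : Finset (Fin r)) (h : O.card = k) :
    ∃ g : Fin k → Fin r, Injective g ∧ ∀ i, i ∈ O ↔ ∃ j, g j = i := by
  refine ⟨fun j => ((O.equivFinOfCardEq h).symm j : Fin r), ?_, ?_⟩
  · intro x y hxy
    exact (O.equivFinOfCardEq h).symm.injective (Subtype.ext hxy)
  · intro i
    constructor
    · intro hi
      exact ⟨O.equivFinOfCardEq h ⟨i, hi⟩, by simp⟩
    · rintro ⟨j, rfl⟩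
      exact ((O.equivFinOfCardEq h).symm j).2

lemma inj5 {α : Type} {g : Fin 4 → α} (hg : Injective g) {x : α} (hx : ∀ j, g j ≠ x) :
    Injective ![g 0, g 1, g 2, g 3, x] := by
  have h : ![g 0, g 1, g 2, g 3, x] = Fin.snoc (α := fun _ => α) g x := by
    funext j
    fin_cases j <;> rfl
  rw [h, Fin.snoc_injective_iff]
  exact ⟨hg, fun ⟨j, hj⟩ => hx j hj⟩

lemma inj6 {α : Type} {g : Fin 4 → α} (hg : Injective g) {x y : α} (hx : ∀ j, g j ≠ x)
    (hy : ∀ j, g j ≠ y) (hxy : x ≠ y) :
    Injective ![g 0, g 1, g 2, g 3, x, y] := by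
  have h : ![g 0, g 1, g 2, g 3, x, y] =
      Fin.snoc (α := fun _ => α) ![g 0, g 1, g 2, g 3, x] y := by
    funext j
    fin_cases j <;> rfl
  rw [h, Fin.snoc_injective_iff]
  refine ⟨inj5 hg hx, ?_⟩
  rintro ⟨j, hj⟩
  fin_cases j
  · exact hy _ hj
  · exact hy _ hj
  · exact hy _ hj
  · exact hy _ hj
  · exact hxy hj

/-- All complete multipartite graphs with at least six parts, an even number of edges and at most
five parts of odd size have a splitting permutation. -/
theorem exists_good {r : ℕ} (hr : 6 ≤ r) (n : Fin r → ℕ) (hn : ∀ i, 1 ≤ n i)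
    (hk : (Finset.univ.filter fun i => n i % 2 = 1).card = 0 ∨
      (Finset.univ.filter fun i => n i % 2 = 1).card = 1 ∨
      (Finset.univ.filter fun i => n i % 2 = 1).card = 4 ∨
      (Finset.univ.filter fun i => n i % 2 = 1).card = 5) :
    ∃ S, Good (fun v : (Σ i, Fin (n i)) => v.1) S := by
  set O := Finset.univ.filter fun i => n i % 2 = 1 with hO
  have hmem : ∀ i, i ∈ O ↔ n i % 2 = 1 := fun i => by simp [hO]
  rcases hk with hk | hk | hk | hk
  · -- no odd part
    refine good_empty.apply (fun j => j.elim0) (fun j => j.elim0) n (fun j => j.elim0)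
      (fun j => j.elim0) (fun j => j.elim0) (fun j => j.elim0) (fun j => j.elim0) fun i _ => ?_
    have h1 : i ∉ O := by rw [Finset.card_eq_zero.1 hk]; simp
    rw [hmem] at h1
    omega
  · -- one odd part
    obtain ⟨g, hg, hgO⟩ := exists_enum O hk
    refine good_one.apply (fun _ => 1) (fun j => ?_) n g hg (fun j => hn _) (fun j => ?_)
      (fun j hj => absurd (Set.mem_univ j) hj) fun i hi => ?_
    · have : j = 0 := Subsingleton.elim _ _
      subst this; decide
    · have := (hmem (g j)).1 ((hgO _).2 ⟨j, rfl⟩)
      omega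
    · have h1 : i ∉ O := fun h => by
        obtain ⟨j, hj⟩ := (hgO i).1 h
        exact hi j hj
      rw [hmem] at h1
      omega
  · -- four odd parts
    obtain ⟨g, hg, hgO⟩ := exists_enum O hk
    have hodd : ∀ j, n (g j) % 2 = 1 := fun j => (hmem _).1 ((hgO _).2 ⟨j, rfl⟩)
    -- the even parts
    have hcompl : 2 ≤ Oᶜ.card := by
      rw [Finset.card_compl, Fintype.card_fin]; omega
    obtain ⟨x, hx, y, hy, hxy⟩ := Finset.one_lt_card.1 hcompl
    rw [Finset.mem_compl, hmem] at hx hy
    have hne : ∀ j z, n z % 2 ≠ 1 → g j ≠ z := by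
      intro j z hz h
      exact hz (h ▸ hodd j)
    have hlt : ∀ j, ¬ (3 ≤ n (g j)) → n (g j) = 1 := by
      intro j hj
      have := hodd j
      omega
    have heven : ∀ z, n z % 2 ≠ 1 → 2 ≤ n z := by
      intro z hz
      have := hn z
      omega
    have hout : ∀ (σ : Equiv.Perm (Fin 4)) (i : Fin r), g (σ 0) ≠ i → g (σ 1) ≠ i →
        g (σ 2) ≠ i → g (σ 3) ≠ i → n i % 2 = 0 := by
      intro σ i h0 h1 h2 h3
      have h4 : i ∉ O := fun h => by
        obtain ⟨j, hj⟩ := (hgO i).1 h
        obtain ⟨k, rfl⟩ := σ.surjective j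
        fin_cases k
        · exact h0 hj
        · exact h1 hj
        · exact h2 hj
        · exact h3 hj
      rw [hmem] at h4
      omega
    rcases sort4 (fun j => decide (3 ≤ n (g j))) with ⟨σ, h0, h1⟩ | ⟨σ, h0, h1, h2, h3⟩ | h0
    · -- at least two odd parts of size at least three
      simp only [decide_eq_true_eq] at h0 h1
      refine goodB7.apply ![3, 3, 1, 1, 2] (by decide) n
        ![g (σ 0), g (σ 1), g (σ 2), g (σ 3), x]
        (inj5 (g := g ∘ σ) (hg.comp σ.injective) fun j => hne _ _ hx) ?_ ?_ ?_ ?_
      · intro j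
        fin_cases j
        · exact h0
        · exact h1
        · exact hn _
        · exact hn _
        · exact heven x hx
      · intro j
        fin_cases j
        · exact (hodd _).symm
        · exact (hodd _).symm
        · exact (hodd _).symm
        · exact (hodd _).symm
        · show 2 % 2 = n x % 2
          omega
      · exact fun j hj => absurd (Set.mem_univ j) hj
      · exact fun i hi => hout σ i (hi 0) (hi 1) (hi 2) (hi 3)
    · simp only [decide_eq_true_eq, decide_eq_false_iff_not] at h0 h1 h2 h3
      by_cases hbig : ∃ z, n z % 2 ≠ 1 ∧ 4 ≤ n z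
      · obtain ⟨z, hz, hz4⟩ := hbig
        refine goodB6.apply ![3, 1, 1, 1, 4] (by decide) n
          ![g (σ 0), g (σ 1), g (σ 2), g (σ 3), z]
          (inj5 (g := g ∘ σ) (hg.comp σ.injective) fun j => hne _ _ hz) ?_ ?_ ?_ ?_
        · intro j
          fin_cases j
          · exact h0
          · exact hn _
          · exact hn _
          · exact hn _
          · exact hz4
        · intro j
          fin_cases j
          · exact (hodd _).symm
          · exact (hodd _).symm
          · exact (hodd _).symm
          · exact (hodd _).symm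
          · show 4 % 2 = n z % 2
            omega
        · exact fun j hj => absurd (Set.mem_univ j) hj
        · exact fun i hi => hout σ i (hi 0) (hi 1) (hi 2) (hi 3)
      · push Not at hbig
        have hx2 : n x = 2 := by
          have h4 := hbig x hx
          have h5 := heven x hx
          omega
        refine goodB5.apply ![3, 1, 1, 1, 2, 2] (by decide) n
          ![g (σ 0), g (σ 1), g (σ 2), g (σ 3), x, y]
          (inj6 (g := g ∘ σ) (hg.comp σ.injective) (fun j => hne _ _ hx)
            (fun j => hne _ _ hy) hxy) ?_ ?_ ?_ ?_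
        · intro j
          fin_cases j
          · exact h0
          · exact hn _
          · exact hn _
          · exact hn _
          · exact heven x hx
          · exact heven y hy
        · intro j
          fin_cases j
          · exact (hodd _).symm
          · exact (hodd _).symm
          · exact (hodd _).symm
          · exact (hodd _).symm
          · show 2 % 2 = n x % 2
            omega
          · show 2 % 2 = n y % 2
            omega
        · intro j hj
          fin_cases j
          · exact absurd (Or.inl rfl) hj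
          · exact (hlt _ h1).symm
          · exact (hlt _ h2).symm
          · exact (hlt _ h3).symm
          · exact hx2.symm
          · exact absurd (by simp) hj
        · exact fun i hi => hout σ i (hi 0) (hi 1) (hi 2) (hi 3)
    · simp only [decide_eq_false_iff_not] at h0
      refine goodB4.apply ![1, 1, 1, 1] (by decide) n g hg ?_ ?_ ?_ ?_
      · intro j
        fin_cases j <;> exact hn _
      · intro j
        fin_cases j <;> exact (hodd _).symm
      · intro j _
        rw [hlt j (h0 j)]
        fin_cases j <;> rfl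
      · intro i hi
        exact hout 1 i (hi _) (hi _) (hi _) (hi _)
  · -- five odd parts
    obtain ⟨g, hg, hgO⟩ := exists_enum O hk
    have hodd : ∀ j, n (g j) % 2 = 1 := fun j => (hmem _).1 ((hgO _).2 ⟨j, rfl⟩)
    have hlt : ∀ j, ¬ (3 ≤ n (g j)) → n (g j) = 1 := by
      intro j hj
      have := hodd j
      omega
    have hout : ∀ (σ : Equiv.Perm (Fin 5)) (i : Fin r), (∀ j, (g ∘ σ) j ≠ i) →
        n i % 2 = 0 := by
      intro σ i h0
      have h4 : i ∉ O := fun h => by
        obtain ⟨j, hj⟩ := (hgO i).1 h
        obtain ⟨k, rfl⟩ := σ.surjective j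
        exact h0 k hj
      rw [hmem] at h4
      omega
    rcases sort5 (fun j => decide (3 ≤ n (g j))) with ⟨σ, h0, h1⟩ | ⟨σ, h1, h2, h3, h4⟩
    · simp only [decide_eq_true_eq] at h0 h1
      refine goodB3.apply ![3, 3, 1, 1, 1] (by decide) n (g ∘ σ) (hg.comp σ.injective)
        ?_ ?_ ?_ ?_
      · intro j
        fin_cases j
        · exact h0
        · exact h1
        · exact hn _
        · exact hn _
        · exact hn _
      · intro j
        fin_cases j <;> exact (hodd _).symm
      · exact fun j hj => absurd (Set.mem_univ j) hj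
      · exact hout σ
    · simp only [decide_eq_false_iff_not] at h1 h2 h3 h4
      refine goodB2.apply ![1, 1, 1, 1, 1] (by decide) n (g ∘ σ) (hg.comp σ.injective)
        ?_ ?_ ?_ ?_
      · intro j
        fin_cases j <;> exact hn _
      · intro j
        fin_cases j <;> exact (hodd _).symm
      · intro j hj
        fin_cases j
        · exact absurd rfl hj
        · exact (hlt _ h1).symm
        · exact (hlt _ h2).symm
        · exact (hlt _ h3).symm
        · exact (hlt _ h4).symm
      · exact hout σ

/-- The divisibility condition is sufficient for two factors and `6` or `7` parts. -/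
theorem condition_sufficient {r : ℕ} (hr : 6 ≤ r) (hr' : r ≤ 7) : ConditionSufficient r 2 := by
  intro n hn h2
  have h := odd_parts n h2
  have hle : (Finset.univ.filter fun i => n i % 2 = 1).card ≤ 7 :=
    (Finset.card_le_univ _).trans (by rw [Fintype.card_fin]; exact hr')
  obtain ⟨S, hS⟩ := exists_good hr n hn (by
    generalize (Finset.univ.filter fun i => n i % 2 = 1).card = k at h hle
    interval_cases k <;> simp_all)
  exact hS.divisible

end Pool.Agent.MP_369736_co
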