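import Mathlib

set_option autoImplicit false

namespace Pool.Agent.MP_369736_co

/-- `G` is divisible by `t`: its edge set is partitioned into `t` classes such that the `t`
spanning subgraphs formed by them are pairwise isomorphic. -/
def DivisibleBy {V : Type} (G : SimpleGraph V) (t : ℕ) : Prop :=
  ∃ H : Fin t → SimpleGraph V,
    (∀ u v, G.Adj u v ↔ ∃ j, (H j).Adj u v) ∧
    (∀ i j, i ≠ j → ∀ u v, (H i).Adj u v → ¬ (H j).Adj u v) ∧
    ∀ i j, Nonempty (H i ≃g H j)

/-- The divisibility condition is sufficient for `(r, t)`: every complete `r`-partite graph whose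
number of edges is a multiple of `t` is divisible by `t`. -/
def ConditionSufficient (r t : ℕ) : Prop :=
  ∀ n : Fin r → ℕ, (∀ i, 1 ≤ n i) →
    t ∣ Nat.card (SimpleGraph.completeMultipartiteGraph fun i => Fin (n i)).edgeSet →
    DivisibleBy (SimpleGraph.completeMultipartiteGraph fun i => Fin (n i)) t

end Pool.Agent.MP_369736_co
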