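import Pool.Agent.MP_369736_co.Base
import Pool.Agent.MP_369736_co.Defs

set_option autoImplicit false

namespace Pool.Agent.MP_369736_co

open Function SimpleGraph

lemma card_fibre_comp {N m r : ℕ} (c : Fin N → Fin m) {f : Fin m → Fin r} (hf : Injective f)
    (j : Fin m) : Fintype.card {v // (f ∘ c) v = f j} = Fintype.card {v // c v = j} := by
  apply Fintype.card_congr
  exact Equiv.subtypeEquivRight fun v => hf.eq_iff

lemma card_fibre_comp_zero {N m r : ℕ} (c : Fin N → Fin m) {f : Fin m → Fin r} {i : Fin r}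
    (hi : ∀ j, f j ≠ i) : Fintype.card {v // (f ∘ c) v = i} = 0 := by
  rw [Fintype.card_eq_zero_iff]
  exact ⟨fun v => hi _ v.2⟩

lemma Good.apply {N m r : ℕ} {c : Fin N → Fin m} {S : Set (Fin m)} (h : Good c S)
    (b : Fin m → ℕ) (hb : ∀ j, Fintype.card {v // c v = j} = b j)
    (n : Fin r → ℕ) (f : Fin m → Fin r) (hf : Injective f)
    (h1 : ∀ j, b j ≤ n (f j)) (h2 : ∀ j, b j % 2 = n (f j) % 2)
    (h3 : ∀ j, j ∉ S → b j = n (f j)) (h4 : ∀ i, (∀ j, f j ≠ i) → n i % 2 = 0) :
    ∃ S', Good (fun v : (Σ i, Fin (n i)) => v.1) S' := by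
  refine ⟨{i | ∀ j, f j = i → j ∈ S}, ?_⟩
  refine Good.grow n _ (f ∘ c) (h.map hf fun j hj => hj j rfl) ?_ ?_ ?_ le_rfl
  · intro i
    by_cases hr : ∃ j, f j = i
    · obtain ⟨j, rfl⟩ := hr
      rw [card_fibre_comp c hf, hb]; exact h1 j
    · push Not at hr
      rw [card_fibre_comp_zero c hr]; exact Nat.zero_le _
  · intro i
    by_cases hr : ∃ j, f j = i
    · obtain ⟨j, rfl⟩ := hr
      rw [card_fibre_comp c hf, hb]; exact h2 j
    · push Not at hr
      rw [card_fibre_comp_zero c hr, h4 i hr]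
  · intro i hi
    by_cases hr : ∃ j, f j = i
    · obtain ⟨j, rfl⟩ := hr
      rw [card_fibre_comp c hf, hb]
      refine h3 j fun hj => hi ?_
      intro j' hj'
      rw [hf hj']; exact hj
    · push Not at hr
      exact absurd (fun j hj => absurd hj (hr j)) hi

/-- From a splitting permutation to an isomorphic factorisation into two factors. -/
lemma Good.divisible {r : ℕ} {n : Fin r → ℕ} {S : Set (Fin r)}
    (h : Good (fun v : (Σ i, Fin (n i)) => v.1) S) :
    DivisibleBy (completeMultipartiteGraph fun i => Fin (n i)) 2 := by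
  obtain ⟨φ, E, h1, h2, h3, -⟩ := h
  let H0 : SimpleGraph (Σ i, Fin (n i)) :=
    { Adj := E
      symm := ⟨fun u v h => h1 u v h⟩
      loopless := ⟨fun u h => h2 u u h rfl⟩ }
  let H1 : SimpleGraph (Σ i, Fin (n i)) :=
    { Adj := fun u v => u.1 ≠ v.1 ∧ ¬ E u v
      symm := ⟨fun u v h => ⟨h.1.symm, fun h' => h.2 (h1 _ _ h')⟩⟩
      loopless := ⟨fun u h => h.1 rfl⟩ }
  have iso : H0 ≃g H1 :=
    { toEquiv := φ
      map_rel_iff' := fun {u v} => (h3 u v).symm }
  refine ⟨![H0, H1], ?_, ?_, ?_⟩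
  · intro u v
    rw [Fin.exists_fin_two]
    show u.1 ≠ v.1 ↔ (E u v ∨ (u.1 ≠ v.1 ∧ ¬ E u v))
    constructor
    · intro h
      by_cases hE : E u v
      · exact Or.inl hE
      · exact Or.inr ⟨h, hE⟩
    · rintro (h | h)
      · exact h2 u v h
      · exact h.1
  · intro i j hij u v
    fin_cases i <;> fin_cases j
    · exact absurd rfl hij
    · exact fun hE hc => hc.2 hE
    · exact fun hc hE => hc.2 hE
    · exact absurd rfl hij
  · intro i j
    fin_cases i <;> fin_cases j
    · exact ⟨Iso.refl⟩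
    · exact ⟨iso⟩
    · exact ⟨iso.symm⟩
    · exact ⟨Iso.refl⟩

/-- Twice the number of edges plus the sum of the squares of the part sizes is the square of the
number of vertices. -/
lemma two_mul_card_edges {r : ℕ} (n : Fin r → ℕ) :
    2 * Nat.card (completeMultipartiteGraph fun i => Fin (n i)).edgeSet + ∑ i, n i ^ 2 =
      (∑ i, n i) ^ 2 := by
  classical
  have hdeg : ∀ v : (Σ i, Fin (n i)),
      (completeMultipartiteGraph fun i => Fin (n i)).degree v + n v.1 = ∑ i, n i := by
    intro v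
    have h1 : (completeMultipartiteGraph fun i => Fin (n i)).degree v =
        (Finset.univ.filter fun w : (Σ i, Fin (n i)) => v.1 ≠ w.1).card := by
      rw [← card_neighborFinset_eq_degree]
      congr 1
      ext w
      simp
    have h2 : n v.1 = (Finset.univ.filter fun w : (Σ i, Fin (n i)) => ¬ v.1 ≠ w.1).card := by
      have h3 : (Finset.univ.filter fun w : (Σ i, Fin (n i)) => ¬ v.1 ≠ w.1) =
          (Finset.univ : Finset (Fin (n v.1))).map ⟨fun x => (⟨v.1, x⟩ : Σ i, Fin (n i)),
            fun x y hxy => by simpa using hxy⟩ := by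
        ext ⟨i, x⟩
        simp only [Finset.mem_filter, Finset.mem_univ, true_and, not_not, Finset.mem_map,
          Function.Embedding.coeFn_mk]
        constructor
        · intro h
          subst h
          exact ⟨x, rfl⟩
        · rintro ⟨y, hy⟩
          exact congrArg Sigma.fst hy
      rw [h3, Finset.card_map, Finset.card_univ, Fintype.card_fin]
    rw [h1, h2, Finset.card_filter_add_card_filter_not, Finset.card_univ, Fintype.card_sigma]
    simp
  have hsum := sum_degrees_eq_twice_card_edges (completeMultipartiteGraph fun i => Fin (n i))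
  have hcard : Nat.card (completeMultipartiteGraph fun i => Fin (n i)).edgeSet =
      (completeMultipartiteGraph fun i => Fin (n i)).edgeFinset.card := by
    rw [Nat.card_eq_fintype_card, edgeFinset_card]
  rw [hcard, ← hsum]
  have h4 : ∑ i, n i ^ 2 = ∑ v : (Σ i, Fin (n i)), n v.1 := by
    rw [Fintype.sum_sigma]
    refine Finset.sum_congr rfl fun i _ => ?_
    simp [sq]
  rw [h4, ← Finset.sum_add_distrib, Finset.sum_congr rfl fun v _ => hdeg v, Finset.sum_const,
    Finset.card_univ, Fintype.card_sigma]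
  simp [sq]

/-- If the number of edges is even then the number `k` of odd parts satisfies
`k ^ 2 ≡ k` modulo `4`. -/
lemma odd_parts {r : ℕ} (n : Fin r → ℕ)
    (h : 2 ∣ Nat.card (completeMultipartiteGraph fun i => Fin (n i)).edgeSet) :
    (Finset.univ.filter fun i => n i % 2 = 1).card ^ 2 % 4 =
      (Finset.univ.filter fun i => n i % 2 = 1).card % 4 := by
  have h1 := two_mul_card_edges n
  obtain ⟨q, hq⟩ := h
  rw [hq] at h1
  set k := (Finset.univ.filter fun i => n i % 2 = 1).card with hk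
  have h2 : (∑ i, n i ^ 2) % 4 = k % 4 := by
    rw [Finset.sum_nat_mod]
    have h3 : ∀ i, n i ^ 2 % 4 = if n i % 2 = 1 then 1 else 0 := by
      intro i
      rcases Nat.mod_two_eq_zero_or_one (n i) with h | h
      · rw [if_neg (by omega)]
        obtain ⟨a, ha⟩ : ∃ a, n i = 2 * a := ⟨n i / 2, by omega⟩
        rw [ha, mul_pow]; omega
      · rw [if_pos h]
        obtain ⟨a, ha⟩ : ∃ a, n i = 2 * a + 1 := ⟨n i / 2, by omega⟩
        rw [ha]
        have : (2 * a + 1) ^ 2 = 4 * (a ^ 2 + a) + 1 := by ring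
        rw [this]; omega
    rw [Finset.sum_congr rfl fun i _ => h3 i, Finset.sum_ite, Finset.sum_const, Finset.sum_const]
    simp [hk]
  have h3 : (∑ i, n i) % 2 = k % 2 := by
    rw [Finset.sum_nat_mod]
    have h4 : ∀ i, n i % 2 = if n i % 2 = 1 then 1 else 0 := by
      intro i
      rcases Nat.mod_two_eq_zero_or_one (n i) with h | h
      · rw [if_neg (by omega)]; exact h
      · rw [if_pos h]; exact h
    rw [Finset.sum_congr rfl fun i _ => h4 i, Finset.sum_ite, Finset.sum_const, Finset.sum_const]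
    simp [hk]
  have h5 : (∑ i, n i) ^ 2 % 4 = k ^ 2 % 4 := by
    generalize (∑ i, n i) = s at h3
    rcases Nat.mod_two_eq_zero_or_one k with h | h
    · obtain ⟨a, ha⟩ : ∃ a, s = 2 * a := ⟨s / 2, by omega⟩
      obtain ⟨b, hb⟩ : ∃ b, k = 2 * b := ⟨k / 2, by omega⟩
      rw [ha, hb, mul_pow, mul_pow]; omega
    · obtain ⟨a, ha⟩ : ∃ a, s = 2 * a + 1 := ⟨s / 2, by omega⟩
      obtain ⟨b, hb⟩ : ∃ b, k = 2 * b + 1 := ⟨k / 2, by omega⟩
      have e1 : (2 * a + 1) ^ 2 = 4 * (a ^ 2 + a) + 1 := by ring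
      have e2 : (2 * b + 1) ^ 2 = 4 * (b ^ 2 + b) + 1 := by ring
      rw [ha, hb, e1, e2]; omega
  omega

end Pool.Agent.MP_369736_co
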