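import Mathlib

set_option autoImplicit false

namespace Pool.Agent.MP_369736_co

open Function

/-- A vertex colouring `c` (the parts of a complete multipartite graph) together with a
permutation `φ` of the vertices exchanging the two halves of the edge set, such that two new
vertices can be added to each part with index in `S`. -/
def Good {V ι : Type} (c : V → ι) (S : Set ι) : Prop :=
  ∃ (φ : Equiv.Perm V) (E : V → V → Prop),
    (∀ u v, E u v → E v u) ∧ (∀ u v, E u v → c u ≠ c v) ∧
    (∀ u v, E u v ↔ (c (φ u) ≠ c (φ v) ∧ ¬ E (φ u) (φ v))) ∧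
    ∀ i ∈ S, ∃ A B : V → Prop, (∀ w, A w → c w ≠ i) ∧ (∀ w, B w → c w ≠ i) ∧
      (∀ w, A w ↔ (c (φ w) ≠ i ∧ ¬ B (φ w))) ∧ (∀ w, B w ↔ (c (φ w) ≠ i ∧ ¬ A (φ w)))

/-- Relabelling the parts along an injection; parts which are not hit are empty and extendable. -/
lemma Good.map {V ι κ : Type} {c : V → ι} {S : Set ι} (h : Good c S) {f : ι → κ}
    (hf : Injective f) {S' : Set κ} (hS : ∀ j, f j ∈ S' → j ∈ S) : Good (f ∘ c) S' := by
  obtain ⟨φ, E, h1, h2, h3, h4⟩ := h
  refine ⟨φ, E, h1, fun u v huv hc => h2 u v huv (hf hc), fun u v => ?_, fun i hi => ?_⟩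
  · rw [h3 u v]
    simp only [Function.comp_apply, ne_eq, hf.eq_iff]
  · by_cases hr : ∃ j, f j = i
    · obtain ⟨j, rfl⟩ := hr
      obtain ⟨A, B, hA, hB, hAB, hBA⟩ := h4 j (hS j hi)
      refine ⟨A, B, fun w hw hc => hA w hw (hf hc), fun w hw hc => hB w hw (hf hc),
        fun w => ?_, fun w => ?_⟩
      · rw [hAB w]; simp only [Function.comp_apply, ne_eq, hf.eq_iff]
      · rw [hBA w]; simp only [Function.comp_apply, ne_eq, hf.eq_iff]
    · push Not at hr
      exact ⟨fun _ => True, fun _ => False, fun w _ => hr _, fun w hw => hw.elim,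
        fun w => by simp [hr], fun w => by simp⟩

/-- Adding two vertices to an extendable part. -/
lemma Good.extend {V ι : Type} {c : V → ι} {S : Set ι} (h : Good c S) {i : ι} (hi : i ∈ S) :
    Good (Sum.elim c (fun _ : Bool => i)) S := by
  obtain ⟨φ, E, h1, h2, h3, h4⟩ := h
  obtain ⟨A, B, hA, hB, hAB, hBA⟩ := h4 i hi
  let E' : V ⊕ Bool → V ⊕ Bool → Prop := fun u v =>
    match u, v with
    | Sum.inl u, Sum.inl v => E u v
    | Sum.inl u, Sum.inr true => A u
    | Sum.inl u, Sum.inr false => B u
    | Sum.inr true, Sum.inl v => A v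
    | Sum.inr false, Sum.inl v => B v
    | Sum.inr _, Sum.inr _ => False
  refine ⟨Equiv.sumCongr φ Equiv.boolNot, E', ?_, ?_, ?_, ?_⟩
  · rintro (u | _ | _) (v | _ | _) huv
    · exact h1 u v huv
    all_goals exact huv
  · rintro (u | _ | _) (v | _ | _) huv
    · exact h2 u v huv
    · exact hB u huv
    · exact hA u huv
    · exact (hB v huv).symm
    · exact huv.elim
    · exact huv.elim
    · exact (hA v huv).symm
    · exact huv.elim
    · exact huv.elim
  · rintro (u | _ | _) (v | _ | _)
    · exact h3 u v
    · exact hBA u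
    · exact hAB u
    · have := hBA v
      simp only [Equiv.sumCongr_apply, Sum.map_inr, Sum.map_inl, Sum.elim_inl, Sum.elim_inr]
      simp only [Equiv.boolNot, E', ne_comm (a := i)]
      exact this
    · simp [E']
    · simp [E']
    · have := hAB v
      simp only [Equiv.sumCongr_apply, Sum.map_inr, Sum.map_inl, Sum.elim_inl, Sum.elim_inr]
      simp only [Equiv.boolNot, E', ne_comm (a := i)]
      exact this
    · simp [E']
    · simp [E']
  · intro j hj
    by_cases hji : j = i
    · subst hji
      refine ⟨Sum.elim A fun _ => False, Sum.elim B fun _ => False, ?_, ?_, ?_, ?_⟩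
      · rintro (w | b) hw
        · exact hA w hw
        · exact hw.elim
      · rintro (w | b) hw
        · exact hB w hw
        · exact hw.elim
      · rintro (w | b)
        · exact hAB w
        · simp
      · rintro (w | b)
        · exact hBA w
        · simp
    · obtain ⟨A', B', hA', hB', hAB', hBA'⟩ := h4 j hj
      refine ⟨Sum.elim A' fun _ => True, Sum.elim B' fun _ => False, ?_, ?_, ?_, ?_⟩
      · rintro (w | b) hw
        · exact hA' w hw
        · exact fun h => hji h.symm
      · rintro (w | b) hw
        · exact hB' w hw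
        · exact hw.elim
      · rintro (w | b)
        · exact hAB' w
        · simp [Ne.symm hji]
      · rintro (w | b)
        · exact hBA' w
        · simp

/-- Transport along a bijection of the vertices. -/
lemma Good.congr {V W ι : Type} {c : V → ι} {d : W → ι} {S : Set ι} (h : Good c S)
    (e : V ≃ W) (he : ∀ v, d (e v) = c v) : Good d S := by
  obtain ⟨φ, E, h1, h2, h3, h4⟩ := h
  have hd : ∀ w, d w = c (e.symm w) := fun w => by rw [← he, e.apply_symm_apply]
  refine ⟨(e.symm.trans φ).trans e, fun u v => E (e.symm u) (e.symm v), fun u v h => h1 _ _ h,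
    fun u v h => ?_, fun u v => ?_, fun i hi => ?_⟩
  · rw [hd, hd]; exact h2 _ _ h
  · have := h3 (e.symm u) (e.symm v)
    simpa [hd] using this
  · obtain ⟨A, B, hA, hB, hAB, hBA⟩ := h4 i hi
    refine ⟨fun w => A (e.symm w), fun w => B (e.symm w), fun w hw => ?_, fun w hw => ?_,
      fun w => ?_, fun w => ?_⟩
    · rw [hd]; exact hA _ hw
    · rw [hd]; exact hB _ hw
    · have := hAB (e.symm w)
      simpa [hd] using this
    · have := hBA (e.symm w)
      simpa [hd] using this

/-- Two finite coloured sets with equally many vertices of each colour are in colour preserving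
bijection. -/
lemma exists_equiv {V ι : Type} [Fintype V] [DecidableEq ι] (c : V → ι) (n : ι → ℕ)
    (hn : ∀ i, Fintype.card {v // c v = i} = n i) :
    ∃ e : V ≃ (Σ i, Fin (n i)), ∀ v, (e v).1 = c v := by
  refine ⟨(Equiv.sigmaFiberEquiv c).symm.trans
    (Equiv.sigmaCongrRight fun i => Fintype.equivFinOfCardEq (hn i)), fun v => ?_⟩
  rfl

lemma card_fibre_extend {V ι : Type} [Fintype V] [DecidableEq ι] (c : V → ι) (i j : ι) :
    Fintype.card {v : V ⊕ Bool // Sum.elim c (fun _ : Bool => i) v = j} =
      Fintype.card {v // c v = j} + if i = j then 2 else 0 := by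
  rw [Fintype.card_congr Equiv.subtypeSum, Fintype.card_sum]
  congr 1
  split_ifs with h
  · subst h
    simp
  · simp [h]

/-- Enlarging the parts step by step. -/
lemma Good.grow {ι : Type} [Fintype ι] [DecidableEq ι] (n : ι → ℕ) {S : Set ι} (m : ℕ) :
    ∀ {V : Type} [Fintype V] (c : V → ι), Good c S →
      (∀ i, Fintype.card {v // c v = i} ≤ n i) →
      (∀ i, Fintype.card {v // c v = i} % 2 = n i % 2) →
      (∀ i, i ∉ S → Fintype.card {v // c v = i} = n i) →
      (∑ i, (n i - Fintype.card {v // c v = i}) ≤ m) →
      Good (fun v : (Σ i, Fin (n i)) => v.1) S := by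
  induction m with
  | zero =>
    intro V _ c hc hle _ _ hm
    have heq : ∀ i, Fintype.card {v // c v = i} = n i := by
      intro i
      have h1 : n i - Fintype.card {v // c v = i} = 0 := by
        have := Finset.sum_eq_zero_iff.1 (Nat.le_zero.1 hm) i (Finset.mem_univ i)
        exact this
      have := hle i
      omega
    obtain ⟨e, he⟩ := exists_equiv c n heq
    exact hc.congr e he
  | succ m ih =>
    intro V _ c hc hle hpar hS hm
    by_cases hall : ∀ i, Fintype.card {v // c v = i} = n i
    · obtain ⟨e, he⟩ := exists_equiv c n hall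
      exact hc.congr e he
    · push Not at hall
      obtain ⟨i, hi⟩ := hall
      have hiS : i ∈ S := by
        by_contra hcon
        exact hi (hS i hcon)
      have hlt : Fintype.card {v // c v = i} + 2 ≤ n i := by
        have h1 := hle i
        have h2 := hpar i
        omega
      refine ih (Sum.elim c (fun _ : Bool => i)) (hc.extend hiS) ?_ ?_ ?_ ?_
      · intro j
        rw [card_fibre_extend]
        split_ifs with h
        · subst h; exact hlt
        · exact hle j
      · intro j
        rw [card_fibre_extend]
        split_ifs with h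
        · subst h; rw [← hpar i]; omega
        · exact hpar j
      · intro j hj
        rw [card_fibre_extend, if_neg (fun h : i = j => hj (h ▸ hiS))]
        exact hS j hj
      · have hlt' : ∑ j, (n j - Fintype.card {v : V ⊕ Bool // Sum.elim c (fun _ : Bool => i) v = j})
            < ∑ j, (n j - Fintype.card {v // c v = j}) := by
          refine Finset.sum_lt_sum (fun j _ => ?_) ⟨i, Finset.mem_univ i, ?_⟩
          · rw [card_fibre_extend]; omega
          · rw [card_fibre_extend, if_pos rfl]; omega
        omega

end Pool.Agent.MP_369736_co
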